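import Mathlib

set_option autoImplicit false

namespace Pool.Agent.Results.MP_df5a7a_co.OddFamily

open Finset

/-- S is a total dominating set of G: every vertex has a neighbour in S. -/
def IsTD {V : Type} (G : SimpleGraph V) (S : Set V) : Prop := ∀ v, ∃ t ∈ S, G.Adj v t

/-- td(G): the least number of edges whose addition to G gives a graph with two disjoint total
dominating sets. -/
noncomputable def td {V : Type} (G : SimpleGraph V) : ℕ :=
  sInf {k : ℕ | ∃ H : SimpleGraph V, G ≤ H ∧ (H.edgeSet \ G.edgeSet).ncard = k ∧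
    ∃ S T : Set V, Disjoint S T ∧ IsTD H S ∧ IsTD H T}

/-- The complete graph on m vertices (the diagonal pairs) with every edge doubled and then
subdivided (the pair (i,j) is adjacent to (i,i) and (j,j)). -/
def gr (m : ℕ) : SimpleGraph (Fin m × Fin m) :=
  SimpleGraph.fromRel (fun p q => p = (q.1, q.1) ∨ p = (q.2, q.2))

instance (m : ℕ) : DecidableRel (gr m).Adj := by
  unfold gr; infer_instance

lemma adj_off {m : ℕ} {i j : Fin m} (h : i ≠ j) {t : Fin m × Fin m} (ht : (gr m).Adj (i, j) t) :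
    t = (i, i) ∨ t = (j, j) := by
  simp only [gr, SimpleGraph.fromRel_adj, Prod.mk.injEq] at ht
  obtain ⟨-, (⟨h1, h2⟩ | ⟨h1, h2⟩) | h1⟩ := ht
  · exact absurd (h1.trans h2.symm) h
  · exact absurd (h1.trans h2.symm) h
  · exact h1

lemma cover {V : Type} [Fintype V] [DecidableEq V] (F : Set (Sym2 V)) (D : Finset V)
    (h : ∀ v ∈ D, ∃ e ∈ F, v ∈ e) : D.card ≤ 2 * F.ncard := by
  classical
  have hF : F.Finite := Set.toFinite F
  have hsub : D ⊆ hF.toFinset.biUnion (fun e => e.toFinset) := by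
    intro v hv
    obtain ⟨e, he, hve⟩ := h v hv
    exact mem_biUnion.2 ⟨e, hF.mem_toFinset.2 he, Sym2.mem_toFinset.2 hve⟩
  refine (card_le_card hsub).trans (card_biUnion_le.trans ?_)
  rw [Set.ncard_eq_toFinset_card F hF, mul_comm]
  refine (sum_le_card_nsmul _ _ 2 (fun e _ => ?_)).trans (by simp)
  rw [Sym2.card_toFinset]
  split_ifs <;> omega

lemma lower (k : ℕ) (H : SimpleGraph (Fin (2 * k + 1) × Fin (2 * k + 1))) (S T : Set _)
    (hST : Disjoint S T) (hS : IsTD H S) (hT : IsTD H T) :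
    k * k ≤ (H.edgeSet \ (gr (2 * k + 1)).edgeSet).ncard := by
  classical
  set A : Finset (Fin (2 * k + 1)) := univ.filter (fun i => (i, i) ∈ S) with hA
  have h := cover (H.edgeSet \ (gr (2 * k + 1)).edgeSet) (A.offDiag ∪ Aᶜ.offDiag) (by
    rintro ⟨i, j⟩ hv
    rcases mem_union.1 hv with hv | hv
    · obtain ⟨h1, h2, h3⟩ := mem_offDiag.1 hv
      obtain ⟨t, ht, hadj⟩ := hT (i, j)
      refine ⟨s((i, j), t), ⟨hadj, fun hg => ?_⟩, Sym2.mem_mk_left _ _⟩
      rcases adj_off h3 hg with rfl | rfl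
      · exact Set.disjoint_left.1 hST (mem_filter.1 h1).2 ht
      · exact Set.disjoint_left.1 hST (mem_filter.1 h2).2 ht
    · obtain ⟨h1, h2, h3⟩ := mem_offDiag.1 hv
      obtain ⟨t, ht, hadj⟩ := hS (i, j)
      refine ⟨s((i, j), t), ⟨hadj, fun hg => ?_⟩, Sym2.mem_mk_left _ _⟩
      rcases adj_off h3 hg with rfl | rfl
      · exact mem_compl.1 h1 (mem_filter.2 ⟨mem_univ _, ht⟩)
      · exact mem_compl.1 h2 (mem_filter.2 ⟨mem_univ _, ht⟩))
  rw [card_union_of_disjoint (by
      rw [disjoint_left]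
      intro p h1 h2
      exact mem_compl.1 (mem_offDiag.1 h2).1 (mem_offDiag.1 h1).1),
    offDiag_card, offDiag_card] at h
  have hc : A.card + Aᶜ.card = 2 * k + 1 := by
    rw [card_add_card_compl, Fintype.card_fin]
  generalize A.card = a at *
  generalize Aᶜ.card = b at *
  have ha : a ≤ a * a := Nat.le_mul_self a
  have hb : b ≤ b * b := Nat.le_mul_self b
  have : 2 * (k * k) + a + b ≤ a * a + b * b := by
    have h1 : (1 : ℤ) ≤ ((a : ℤ) - b) ^ 2 := by
      have : (a : ℤ) - b ≠ 0 := by omega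
      exact (one_le_sq_iff_one_le_abs _).2 (Int.one_le_abs this)
    have hc' : (a : ℤ) + b = 2 * k + 1 := by exact_mod_cast hc
    have : 2 * ((k : ℤ) * k) + a + b ≤ a * a + b * b := by nlinarith
    exact_mod_cast this
  omega

lemma td_ge (k : ℕ) (hk : 1 ≤ k) : k * k ≤ td (gr (2 * k + 1)) := by
  refine le_csInf ⟨_, ⊤, le_top, rfl, {p | p.1.val = 0}, {p | p.1.val = 1}, ?_, ?_, ?_⟩ ?_
  · rw [Set.disjoint_left]
    intro p h1 h2
    simp only [Set.mem_ofPred_eq] at h1 h2
    omega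
  · intro v
    by_cases h : v.2.val = 0
    · refine ⟨(⟨0, by omega⟩, ⟨1, by omega⟩), rfl, fun he => ?_⟩
      rw [he] at h; simp at h
    · refine ⟨(⟨0, by omega⟩, ⟨0, by omega⟩), rfl, fun he => ?_⟩
      rw [he] at h; simp at h
  · intro v
    by_cases h : v.2.val = 0
    · refine ⟨(⟨1, by omega⟩, ⟨1, by omega⟩), rfl, fun he => ?_⟩
      rw [he] at h; simp at h
    · refine ⟨(⟨1, by omega⟩, ⟨0, by omega⟩), rfl, fun he => ?_⟩
      rw [he] at h; simp at h
  · rintro _ ⟨H, -, rfl, S, T, hST, hS, hT⟩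
    exact lower k H S T hST hS hT

lemma deg (m : ℕ) (hm : 3 ≤ m) (v : Fin m × Fin m) : 2 ≤ (gr m).degree v := by
  obtain ⟨i, j⟩ := v
  rw [← SimpleGraph.card_neighborFinset_eq_degree]
  by_cases h : i = j
  · subst h
    obtain ⟨l, hl⟩ : ∃ l : Fin m, l ≠ i := by
      by_cases h0 : i.val = 0
      · exact ⟨⟨1, by omega⟩, fun h => by rw [← h] at h0; simp at h0⟩
      · exact ⟨⟨0, by omega⟩, fun h => by rw [← h] at h0; simp at h0⟩
    refine one_lt_card.2 ⟨(i, l), ?_, (l, i), ?_, ?_⟩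
    · rw [SimpleGraph.mem_neighborFinset]; simp [gr, hl.symm]
    · rw [SimpleGraph.mem_neighborFinset]; simp [gr, hl.symm]
    · simp [hl.symm]
  · refine one_lt_card.2 ⟨(i, i), ?_, (j, j), ?_, ?_⟩
    · rw [SimpleGraph.mem_neighborFinset]; simp [gr, Ne.symm h]
    · rw [SimpleGraph.mem_neighborFinset]; simp [gr, h]
    · simp [h]

/-- For every odd m at least 3 there is a graph on n = m^2 vertices with minimum degree at least
two and td(G) > (n - 2 sqrt n) / 4. -/
theorem result (m : ℕ) (hm : 3 ≤ m) (hodd : Odd m) :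
    ∃ (V : Type) (_ : Fintype V) (G : SimpleGraph V) (_ : DecidableRel G.Adj),
      Fintype.card V = m ^ 2 ∧ 2 ≤ G.minDegree ∧
      ((Fintype.card V : ℝ) - 2 * Real.sqrt (Fintype.card V)) / 4 < (td G : ℝ) := by
  have : Nonempty (Fin m × Fin m) := ⟨(⟨0, by omega⟩, ⟨0, by omega⟩)⟩
  have hc : Fintype.card (Fin m × Fin m) = m ^ 2 := by simp [sq]
  refine ⟨Fin m × Fin m, inferInstance, gr m, inferInstance, hc,
    SimpleGraph.le_minDegree_of_forall_le_degree _ _ (deg m hm), ?_⟩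
  obtain ⟨k, rfl⟩ := hodd
  have h := td_ge k (by omega)
  have h' : (k : ℝ) * k ≤ td (gr (2 * k + 1)) := by exact_mod_cast h
  rw [hc]
  push_cast
  rw [Real.sqrt_sq (by positivity)]
  nlinarith

end Pool.Agent.Results.MP_df5a7a_co.OddFamily
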